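import Pool.Agent.H63.DHDC.Final

set_option autoImplicit false

open Pool.Agent.H63.DHDC

namespace Pool.Agent.Results.MP_eafca2_an.TwoDHNotDC

/-- A sequence of pairwise disjoint vectors. -/
def DisjointSeq {E : Type} [NormedAddCommGroup E] [Lattice E] (x : ℕ → E) : Prop :=
  ∀ m n, m ≠ n → |x m| ⊓ |x n| = 0

/-- Equivalence of two sequences. -/
def EquivSeq {E : Type} [NormedAddCommGroup E] [NormedSpace ℝ E] (x y : ℕ → E) : Prop :=
  ∃ C : ℝ, 1 ≤ C ∧ ∀ (s : Finset ℕ) (a : ℕ → ℝ),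
    C⁻¹ * ‖∑ n ∈ s, a n • y n‖ ≤ ‖∑ n ∈ s, a n • x n‖ ∧
    ‖∑ n ∈ s, a n • x n‖ ≤ C * ‖∑ n ∈ s, a n • y n‖

/-- Equivalence with the unit vector basis of `ℓ₂`. -/
def EquivL2 {E : Type} [NormedAddCommGroup E] [NormedSpace ℝ E] (x : ℕ → E) : Prop :=
  ∃ C : ℝ, 1 ≤ C ∧ ∀ (s : Finset ℕ) (a : ℕ → ℝ),
    C⁻¹ * Real.sqrt (∑ n ∈ s, a n ^ 2) ≤ ‖∑ n ∈ s, a n • x n‖ ∧
    ‖∑ n ∈ s, a n • x n‖ ≤ C * Real.sqrt (∑ n ∈ s, a n ^ 2)

/-- Disjointly homogeneous. -/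
def IsDH (E : Type) [NormedAddCommGroup E] [NormedSpace ℝ E] [Lattice E] : Prop :=
  ∀ x y : ℕ → E, (∀ n, ‖x n‖ = 1) → DisjointSeq x → (∀ n, ‖y n‖ = 1) → DisjointSeq y →
    ∃ φ ψ : ℕ → ℕ, StrictMono φ ∧ StrictMono ψ ∧ EquivSeq (fun n => x (φ n)) (fun n => y (ψ n))

/-- `2`-disjointly homogeneous. -/
def IsTwoDH (E : Type) [NormedAddCommGroup E] [NormedSpace ℝ E] [Lattice E] : Prop :=
  ∀ x : ℕ → E, (∀ n, ‖x n‖ = 1) → DisjointSeq x →
    ∃ φ : ℕ → ℕ, StrictMono φ ∧ EquivL2 (fun n => x (φ n))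

/-- The closed linear span of the sequence is the range of a bounded projection. -/
def ComplementedSpan {E : Type} [NormedAddCommGroup E] [NormedSpace ℝ E] (x : ℕ → E) : Prop :=
  ∃ P : E →L[ℝ] E, (∀ v, P (P v) = P v) ∧
    Set.range P = closure (Submodule.span ℝ (Set.range x) : Set E)

/-- Disjointly complemented. -/
def IsDC (E : Type) [NormedAddCommGroup E] [NormedSpace ℝ E] [Lattice E] : Prop :=
  ∀ x : ℕ → E, DisjointSeq x → ∃ φ : ℕ → ℕ, StrictMono φ ∧ ComplementedSpan (fun n => x (φ n))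

theorem isTwoDH_X : IsTwoDH X := by
  intro x hn hd
  obtain ⟨φ, hφ, C, hC, h⟩ := two_DH hn hd
  have hpos : 0 < max 1 C := by positivity
  refine ⟨φ, hφ, max 1 C, le_max_left _ _, fun s a => ⟨?_, ?_⟩⟩
  · rw [inv_mul_le_iff₀ hpos]
    exact (h s a).1.trans (mul_le_mul_of_nonneg_right (le_max_right _ _) (norm_nonneg _))
  · exact (h s a).2.trans (mul_le_mul_of_nonneg_right (le_max_right _ _) (Real.sqrt_nonneg _))

theorem isDH_X : IsDH X := by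
  intro x y hx hxd hy hyd
  obtain ⟨φ, hφ, C, hC, h⟩ := isTwoDH_X x hx hxd
  obtain ⟨ψ, hψ, D, hD, h'⟩ := isTwoDH_X y hy hyd
  have hC0 : 0 < C := by linarith
  have hD0 : 0 < D := by linarith
  refine ⟨φ, ψ, hφ, hψ, C * D, by nlinarith, fun s a => ⟨?_, ?_⟩⟩
  · rw [inv_mul_le_iff₀ (by positivity)]
    have h1 := (h' s a).2
    have h2 := (h s a).1
    rw [inv_mul_le_iff₀ hC0] at h2
    calc ‖∑ n ∈ s, a n • y (ψ n)‖ ≤ D * Real.sqrt (∑ n ∈ s, a n ^ 2) := h1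
      _ ≤ D * (C * ‖∑ n ∈ s, a n • x (φ n)‖) := mul_le_mul_of_nonneg_left h2 hD0.le
      _ = _ := by ring
  · have h1 := (h s a).2
    have h2 := (h' s a).1
    rw [inv_mul_le_iff₀ hD0] at h2
    calc ‖∑ n ∈ s, a n • x (φ n)‖ ≤ C * Real.sqrt (∑ n ∈ s, a n ^ 2) := h1
      _ ≤ C * (D * ‖∑ n ∈ s, a n • y (ψ n)‖) := mul_le_mul_of_nonneg_left h2 hC0.le
      _ = _ := by ring

theorem not_isDC_X : ¬ IsDC X := by
  intro h
  obtain ⟨φ, hφ, P, hP, hr⟩ := h xx xx_disj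
  exact not_compl hφ P hP hr

/-- There is a separable real Banach lattice which is disjointly homogeneous, even
`2`-disjointly homogeneous, but not disjointly complemented. -/
theorem result :
    ∃ (E : Type) (_ : NormedAddCommGroup E) (_ : NormedSpace ℝ E) (_ : Lattice E)
      (_ : IsOrderedAddMonoid E) (_ : IsOrderedModule ℝ E) (_ : HasSolidNorm E)
      (_ : CompleteSpace E) (_ : TopologicalSpace.SeparableSpace E),
      IsDH E ∧ IsTwoDH E ∧ ¬ IsDC E :=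
  ⟨X, inferInstance, inferInstance, inferInstance, inferInstance, inferInstance, inferInstance,
    inferInstance, X_separable, isDH_X, isTwoDH_X, not_isDC_X⟩

end Pool.Agent.Results.MP_eafca2_an.TwoDHNotDC
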